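import Pool.Agent.Y395.RS.Stm

/-! Job RS-LOCAL (helper188). -/

set_option autoImplicit false

namespace Pool.Agent.Y188.RS

open Finset Pool.Agent.H234RC Pool.Agent.TH953.RC Pool.Agent.Y395.RS

theorem degree_image {V : Type} [Fintype V] [DecidableEq V] {G : SimpleGraph V}
    {F : Finset (Sym2 V)} (hF : F ⊆ ed G) {φ : NAut V} (hφ : IsNA (gr F) φ) {y : V}
    (h1 : y ≠ φ.2.1) (h2 : y ≠ φ.2.2) {D1 : ℕ} (hD : (nb G univ y).card ≤ D1) :
    (nb (gr F) univ (φ.1 y)).card ≤ D1 + 2 := by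
  classical
  have hs1 : nb (gr F) univ (φ.1 y) ⊆
      (nb G univ y).image φ.1 ∪ {φ.1 φ.2.1, φ.1 φ.2.2} := by
    intro w hw
    rw [mem_nb] at hw
    obtain ⟨t, rfl⟩ := φ.1.surjective w
    rw [mem_union, mem_insert, mem_singleton, mem_image]
    by_cases c1 : t = φ.2.1
    · exact Or.inr (Or.inl (by rw [c1]))
    by_cases c2 : t = φ.2.2
    · exact Or.inr (Or.inr (by rw [c2]))
    left
    refine ⟨t, ?_, rfl⟩
    rw [mem_nb]
    refine ⟨mem_univ _, ?_⟩
    have h3 := (hφ y t h1 h2 c1 c2).1 hw.2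
    rw [gr_adj_of hF] at h3
    exact (mem_ed G y t).1 (hF h3)
  have a1 := card_le_card hs1
  have a2 := card_union_le ((nb G univ y).image φ.1) {φ.1 φ.2.1, φ.1 φ.2.2}
  have a3 : ((nb G univ y).image φ.1).card ≤ (nb G univ y).card := card_image_le
  have a4 : ({φ.1 φ.2.1, φ.1 φ.2.2} : Finset V).card ≤ 2 := card_le_two
  omega

theorem main : LOCAL := by
  classical
  intro V _ _ G Q Lo D1 K0 F x hF hxQ hQ hLo hx
  unfold Rn at hx
  push Not at hx
  obtain ⟨φ, hφ, hx1, hx2, hx3⟩ := hx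
  set M : Finset V := Q.filter (fun y => y ≠ φ.2.1 ∧ y ≠ φ.2.2 ∧ φ.1 y ≠ y) with hM
  let R : V → V → Prop := fun a b => (gr F).Adj a b ∧ b ∈ M
  set K : Finset V := M.filter (fun y => Relation.ReflTransGen R x y) with hK
  have hxM : x ∈ M := mem_filter.2 ⟨hxQ, hx1, hx2, hx3⟩
  have hxK : x ∈ K := mem_filter.2 ⟨hxM, Relation.ReflTransGen.refl⟩
  have hstep : ∀ y z, y ∈ K → z ∈ M → (gr F).Adj y z → z ∈ K := by
    intro y z hy hz hyz
    exact mem_filter.2 ⟨hz, (mem_filter.1 hy).2.tail ⟨hyz, hz⟩⟩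
  have hfix : ∀ y ∈ K, ∀ z ∈ Q, z ∉ K → z ≠ φ.2.1 → z ≠ φ.2.2 → (gr F).Adj y z → φ.1 z = z := by
    intro y hy z hz hzK z1 z2 hyz
    by_contra hne
    exact hzK (hstep y z hy (mem_filter.2 ⟨hz, z1, z2, hne⟩) hyz)
  by_cases hcard : K.card ≤ K0
  · left
    exact ⟨φ, K, hφ, hx1, hx2, hx3, hxK, hcard, fun z hz hzK z1 z2 hxz =>
      hfix x hxK z hz hzK z1 z2 hxz⟩
  · right
    refine ⟨φ, K, by omega, hφ, fun y hy => (mem_filter.1 (mem_filter.1 hy).1).1, ?_, ?_, hfix⟩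
    · have hreach : ∀ y, Relation.ReflTransGen R x y → ∃ h : y ∈ K,
          ((gr F).induce (K : Set V)).Reachable ⟨x, mem_coe.2 hxK⟩ ⟨y, mem_coe.2 h⟩ := by
        intro y hy
        induction hy with
        | refl => exact ⟨hxK, SimpleGraph.Reachable.refl _⟩
        | tail hab hbc ih =>
          obtain ⟨h, hr⟩ := ih
          refine ⟨hstep _ _ h hbc.2 hbc.1, hr.trans ?_⟩
          refine SimpleGraph.Adj.reachable ?_
          exact hbc.1
      have hne : Nonempty (K : Set V) := ⟨⟨x, mem_coe.2 hxK⟩⟩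
      refine SimpleGraph.Connected.mk ?_
      intro a b
      obtain ⟨ha, ra⟩ := hreach a (mem_filter.1 (mem_coe.1 a.2)).2
      obtain ⟨hb, rb⟩ := hreach b (mem_filter.1 (mem_coe.1 b.2)).2
      exact ra.symm.trans rb
    · intro y hy
      obtain ⟨hyQ, y1, y2, y3⟩ := mem_filter.1 (mem_filter.1 hy).1
      refine ⟨y1, y2, y3, ?_⟩
      by_contra hL
      have h1 := hLo _ hL
      have h2 := degree_image hF hφ y1 y2 (hQ y hyQ)
      omega

end Pool.Agent.Y188.RS
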